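import Pool.Agent.GRA.StmtsK
import Pool.Agent.Helper65_BSE.SUP
import Pool.Agent.Helper65_BSE.OSC

/-!
# GRA squad, row KSU: the maximum principle with a general supersolution (adapted from the module SUP
of the Bose sector)
-/

open MeasureTheory Matrix Finset
open scoped ComplexConjugate

namespace Pool.Agent.GRA.H76

open Pool.Agent.Helper64_FR Pool.Agent.UTR Pool.Agent.BSE Pool.Agent.GRA

open Pool.Agent.BSE.H65.S in
theorem ksu : KSUStmt := by
  intro n k hk w hw μ x f hsup hf h0 hE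
  obtain ⟨c0, R, hosc, hR, hfc, hg, hall⟩ := extremal hk hf h0
  have hF : 0 < ‖f c0‖ := by rw [hfc]; positivity
  have hE0 := hE c0
  -- the bound of the averages
  have hI : ∀ B : Finset (Fin n), ‖∫ A : UB B, f (TB B (A : UU n) c0) ∂(haarB B)‖ ≤
      R * ∫ A : UB B, gg (TB B (A : UU n) c0) ∂(haarB B) := by
    intro B
    rw [← integral_const_mul]
    refine norm_integral_le_of_norm_le (integrable_of_continuous B
      (continuous_const.mul (continuous_gg.comp (continuous_TB B c0)))) ?_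
    refine Filter.Eventually.of_forall fun A => ?_
    refine (hall _).trans ?_
    have h1 : osc (TB B (A : UU n) c0) ≤ 1 := hosc ▸ Pool.Agent.BSE.H65.osc n B (A : UU n) A.2 c0
    have h2 : osc (TB B (A : UU n) c0) ^ (k - 4) ≤ 1 := pow_le_one₀ (osc_nonneg _) h1
    exact mul_le_of_le_one_right (mul_nonneg hR.le (gg_nonneg _)) h2
  -- real part of the eigenvalue equation
  have h1 : x * ‖f c0‖ ^ 2 = ∑ B : Finset (Fin n), w B * (‖f c0‖ ^ 2 -
      (conj (f c0) * ∫ A : UB B, f (TB B (A : UU n) c0) ∂(haarB B)).re) := by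
    have h2 : conj (f c0) * ((x : ℂ) * f c0) = ((x * ‖f c0‖ ^ 2 : ℝ) : ℂ) := by
      rw [mul_left_comm, Complex.conj_mul']
      push_cast
      rfl
    have h3 := congrArg Complex.re (congrArg (fun z => conj (f c0) * z) hE0)
    rw [h2, Complex.ofReal_re, Finset.mul_sum, Complex.re_sum] at h3
    rw [← h3]
    refine Finset.sum_congr rfl fun B _ => ?_
    have h4 : conj (f c0) * ((w B : ℂ) * (f c0 - ∫ A : UB B, f (TB B (A : UU n) c0) ∂(haarB B))) =
        (w B : ℂ) * (((‖f c0‖ ^ 2 : ℝ) : ℂ) -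
          conj (f c0) * ∫ A : UB B, f (TB B (A : UU n) c0) ∂(haarB B)) := by
      rw [mul_left_comm, mul_sub, Complex.conj_mul']
      push_cast
      rfl
    rw [h4, Complex.re_ofReal_mul, Complex.sub_re, Complex.ofReal_re]
  have h2 : ∑ B : Finset (Fin n), w B * (‖f c0‖ * (R * (gg c0 -
      ∫ A : UB B, gg (TB B (A : UU n) c0) ∂(haarB B)))) ≤ x * ‖f c0‖ ^ 2 := by
    rw [h1]
    refine Finset.sum_le_sum fun B _ => mul_le_mul_of_nonneg_left ?_ (hw B)
    have h3 : (conj (f c0) * ∫ A : UB B, f (TB B (A : UU n) c0) ∂(haarB B)).re ≤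
        ‖f c0‖ * (R * ∫ A : UB B, gg (TB B (A : UU n) c0) ∂(haarB B)) := by
      refine (Complex.re_le_norm _).trans ?_
      rw [norm_mul, Complex.norm_conj]
      exact mul_le_mul_of_nonneg_left (hI B) hF.le
    have h4 : ‖f c0‖ * (R * (gg c0 - ∫ A : UB B, gg (TB B (A : UU n) c0) ∂(haarB B))) =
        ‖f c0‖ * (R * gg c0) - ‖f c0‖ *
          (R * ∫ A : UB B, gg (TB B (A : UU n) c0) ∂(haarB B)) := by ring
    rw [h4, ← hfc]
    nlinarith [h3]
  have h3 := hsup c0
  have h4 : ∑ B : Finset (Fin n), w B * (‖f c0‖ * (R * (gg c0 -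
      ∫ A : UB B, gg (TB B (A : UU n) c0) ∂(haarB B)))) = ‖f c0‖ * R *
      ∑ B : Finset (Fin n), w B * (gg c0 -
      ∫ A : UB B, gg (TB B (A : UU n) c0) ∂(haarB B)) := by
    rw [Finset.mul_sum]
    exact Finset.sum_congr rfl fun B _ => by ring
  rw [h4] at h2
  have h5 : ‖f c0‖ * R * (μ * gg c0) ≤ x * ‖f c0‖ ^ 2 :=
    (mul_le_mul_of_nonneg_left h3 (by positivity)).trans h2
  have h6 : ‖f c0‖ * R * (μ * gg c0) = μ * ‖f c0‖ ^ 2 := by
    rw [hfc]; ring
  rw [h6] at h5
  exact le_of_mul_le_mul_right h5 (by positivity)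

end Pool.Agent.GRA.H76
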