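import Pool.Agent.GRA.StmtsM
import Pool.Agent.Helper47_FR.Der
import Pool.Agent.Helper73_FR.Cas

/-!
# GRA squad, row MF4: the mean field bound for the nonspherical representations of U(4)
-/

set_option autoImplicit false

open MeasureTheory Matrix Finset
open scoped ComplexConjugate

namespace Pool.Agent.GRA.H76f

open Pool.Agent.Helper64_FR Pool.Agent.UTR Pool.Agent.BSE Pool.Agent.GRA

theorem exists_perm (a b : Fin 4) (hab : a ≠ b) :
    ∃ τ : Equiv.Perm (Fin 4), τ 0 = a ∧ τ 1 = b := by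
  have hc : Equiv.swap 0 a b ≠ 0 := by
    intro h
    have h1 : Equiv.swap 0 a (Equiv.swap 0 a b) = Equiv.swap 0 a 0 := by rw [h]
    rw [Equiv.swap_apply_self, Equiv.swap_apply_left] at h1
    exact hab h1.symm
  refine ⟨Equiv.swap 0 a * Equiv.swap 1 (Equiv.swap 0 a b), ?_, ?_⟩
  · rw [Equiv.Perm.mul_apply, Equiv.swap_apply_of_ne_of_ne (by decide) (Ne.symm hc),
      Equiv.swap_apply_left]
  · rw [Equiv.Perm.mul_apply, Equiv.swap_apply_left, Equiv.swap_apply_self]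

theorem mf4 (hMDE : MDEStmt) (hMCP : MCPStmt) (hM2A : M2AStmt) (hMIP : MIPStmt)
    (hMSH : MSHStmt) (hMK6 : MK6Stmt) (hMCA : MCAStmt) : MF4Stmt := by
  classical
  intro h3 ρ D C hirr hN hD hC f hf hS hf0
  obtain ⟨d⟩ := hMDE 3 ρ
  obtain ⟨hI1, hI2, hI3, hI4, hI5, hI6⟩ := hMIP 3 ρ d
  have hfn : 0 < ‖f‖ ^ 2 := by
    have := norm_pos_iff.mpr hf0
    positivity
  -- one component
  have hcomp : ∀ t, (4 / 9 : ℝ) * ‖pr (d.T t) f‖ ^ 2 ≤
      ‖pr (d.T t) f - (d.σ t).P {(0 : Fin 3), 1} (pr (d.T t) f)‖ ^ 2 := by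
    intro t
    by_cases h0 : pr (d.T t) f = 0
    · rw [h0, norm_zero]
      simp
    · obtain ⟨D', hD'⟩ := H47.der 3 (d.σ t)
      obtain ⟨C', -, hC', -⟩ := H73.cas 3 (d.σ t) D' (d.irr t) hD'
      have hT := (hI4 t f).1 hf
      have hSI := (hI4 t f).2 hS
      rcases hMCP 3 le_rfl h3 (d.σ t) D' C' (d.irr t) hD' hC' _ hT hSI h0 with h1 | h1
      · have h2 := ((hM2A 3 (by norm_num) (d.σ t) D' C' (hI5 hN t) hD' hC' h1 _ hT hSI h0).2 0 1
          (by decide)).2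
        push_cast at h2
        linarith
      · have h2 := h1.2.2 0 1 (by decide)
        have h4 : (0 : ℝ) ≤ dl ((3 : ℕ) : ℝ) := by
          unfold dl
          refine le_min ?_ (le_min ?_ ?_) <;> norm_num
        have h5 : 0 ≤ ‖pr (d.T t) f‖ ^ 2 := by positivity
        have h6 : 0 ≤ dl ((3 : ℕ) : ℝ) * ‖pr (d.T t) f‖ ^ 2 := mul_nonneg h4 h5
        push_cast at h2 h6
        linarith
  obtain ⟨hsum, hsumP⟩ := hI6 f hf
  have h01 : (4 / 9 : ℝ) * ‖f‖ ^ 2 ≤ ‖f - ρ.P {(0 : Fin 4), 1} f‖ ^ 2 := by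
    have h1 := hsumP {(0 : Fin 3), 1}
    have h2 : (({(0 : Fin 3), 1} : Finset (Fin 3)).map Fin.castSuccEmb)
        = ({(0 : Fin 4), 1} : Finset (Fin 4)) := by decide
    rw [h2] at h1
    rw [h1, hsum, Finset.mul_sum]
    exact Finset.sum_le_sum fun t _ => hcomp t
  obtain ⟨hM1, hM2, hM3, hM4, hM5, hM6⟩ := hMSH (3 + 1) ρ D hD
  have hall : ∀ a b : Fin 4, a ≠ b → (4 / 9 : ℝ) * ‖f‖ ^ 2 ≤ ‖f - ρ.P {a, b} f‖ ^ 2 := by
    intro a b hab
    obtain ⟨τ, h0, h1⟩ := exists_perm a b hab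
    have h2 : ρ.op (pm τ) (f - ρ.P {(0 : Fin 4), 1} f) = f - ρ.P {a, b} f := by
      rw [map_sub, hM4 τ {(0 : Fin 4), 1} f, hS τ]
      congr 2
      rw [Finset.map_insert, Finset.map_singleton]
      simp only [Equiv.coe_toEmbedding, h0, h1]
    rw [← h2, URep.norm_op_apply]
    exact h01
  refine ⟨?_, fun a b hab => ?_⟩
  · have h1 := (hMK6 (3 + 1) ρ D hD 0 1 (by decide) f hf (hS _)).1
    have h2 := (hMCA (3 + 1) ρ D C hD hC f hf).2 hS 0 1 (by decide)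
    have h4 : 12 * ‖D (EE 1 0) f‖ ^ 2 = C * ‖f‖ ^ 2 := by
      rw [← h2]; push_cast; ring
    have h5 : 32 * ‖f‖ ^ 2 ≤ C * ‖f‖ ^ 2 := by
      rw [← h4]
      have h6 := h01
      linarith
    have h6 : 32 ≤ C := le_of_mul_le_mul_right h5 hfn
    push_cast
    linarith
  · have h1 := hall a b hab
    push_cast
    linarith

end Pool.Agent.GRA.H76f
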