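import Pool.Agent.GRA.StmtsM
import Pool.Agent.Helper64_FR.DERP
import Pool.Agent.Helper64_FR.FIX
import Pool.Agent.Helper27_UTR.GEN
import Pool.Agent.Helper2_GRA.MWT

/-!
# GRA squad, row M2A: the representations with small weights have Casimir constant 4n+4
-/

set_option autoImplicit false

open MeasureTheory Matrix Finset
open scoped ComplexConjugate

namespace Pool.Agent.GRA.H76m

open Pool.Agent.Helper64_FR Pool.Agent.UTR Pool.Agent.BSE Pool.Agent.GRA

variable {n : ℕ}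

/-- the norm of `E_ab v` -/
theorem nrm_sq (ρ : URep n) (D : Matrix (Fin n) (Fin n) ℂ →ₗ[ℂ] (ρ.Sp →L[ℂ] ρ.Sp))
    (hD : IsDer ρ D) (a b : Fin n) (v : ρ.Sp) :
    ((‖D (EE a b) v‖ ^ 2 : ℝ) : ℂ) = inner ℂ v (D (EE b a) (D (EE a b) v)) := by
  have h1 : star (D (EE a b)) = D (EE b a) := by rw [hD.star_eq, H02.star_EE]
  have h2 : inner ℂ (D (EE a b) v) (D (EE a b) v) = ((‖D (EE a b) v‖ ^ 2 : ℝ) : ℂ) := by
    rw [inner_self_eq_norm_sq_to_K]
    push_cast
    rfl
  rw [← h2, ← h1, ContinuousLinearMap.star_eq_adjoint]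
  show _ = inner ℂ v (ContinuousLinearMap.adjoint (D (EE a b)) (D (EE a b) v))
  rw [ContinuousLinearMap.adjoint_inner_right]

/-- if `E_ba E_ab v = x v` then `|E_ab v|^2 = x |v|^2` -/
theorem nrm_of_eig (ρ : URep n) (D : Matrix (Fin n) (Fin n) ℂ →ₗ[ℂ] (ρ.Sp →L[ℂ] ρ.Sp))
    (hD : IsDer ρ D) (a b : Fin n) (v : ρ.Sp) (x : ℝ)
    (hx : D (EE b a) (D (EE a b) v) = (x : ℂ) • v) : ‖D (EE a b) v‖ ^ 2 = x * ‖v‖ ^ 2 := by
  have h1 := nrm_sq ρ D hD a b v
  rw [hx, inner_smul_right, inner_self_eq_norm_sq_to_K] at h1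
  have h2 : ((‖D (EE a b) v‖ ^ 2 : ℝ) : ℂ) = ((x * ‖v‖ ^ 2 : ℝ) : ℂ) := by
    rw [h1]; push_cast; rfl
  exact_mod_cast h2

/-- `E_ba E_ab v = E_ab E_ba v - (ν_a - ν_b) v` on vectors of weight `ν` -/
theorem comm_wt (ρ : URep n) (D : Matrix (Fin n) (Fin n) ℂ →ₗ[ℂ] (ρ.Sp →L[ℂ] ρ.Sp))
    (hD : IsDer ρ D) (a b : Fin n) (ν : Fin n → ℝ) (v : ρ.Sp) (hv : wt ρ D ν v) :
    D (EE b a) (D (EE a b) v) = D (EE a b) (D (EE b a) v) - ((ν a - ν b : ℝ) : ℂ) • v := by
  have h1 := congrArg (fun A : ρ.Sp →L[ℂ] ρ.Sp => A v) (hD.comm_eq (EE a b) (EE b a))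
  have h2 : D (EE a b) (D (EE b a) v) - D (EE b a) (D (EE a b) v)
      = D (EE a b * EE b a - EE b a * EE a b) v := h1
  rw [Matrix.single_mul_single_same, Matrix.single_mul_single_same, map_sub,
    ContinuousLinearMap.sub_apply, mul_one, hv a, hv b, ← sub_smul] at h2
  rw [Complex.ofReal_sub, ← h2]
  abel

theorem w2_zero (ρ : URep n) (D : Matrix (Fin n) (Fin n) ℂ →ₗ[ℂ] (ρ.Sp →L[ℂ] ρ.Sp))
    (hW : W2 ρ D) (ν : Fin n → ℝ) (v : ρ.Sp) (hv : wt ρ D ν v) (a : Fin n) (ha : 3 ≤ ν a) :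
    v = 0 := by
  by_contra h0
  have h1 := hW ν v h0 hv
  have h2 : max (ν a) 0 ≤ ∑ i, max (ν i) 0 :=
    Finset.single_le_sum (f := fun i => max (ν i) 0) (fun i _ => le_max_right _ _)
      (Finset.mem_univ a)
  have h3 : ν a ≤ max (ν a) 0 := le_max_left _ _
  linarith

theorem w2_zero2 (ρ : URep n) (D : Matrix (Fin n) (Fin n) ℂ →ₗ[ℂ] (ρ.Sp →L[ℂ] ρ.Sp))
    (hW : W2 ρ D) (ν : Fin n → ℝ) (v : ρ.Sp) (hv : wt ρ D ν v) (a i : Fin n) (hai : a ≠ i)
    (ha : 3 ≤ ν a + ν i) : v = 0 := by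
  by_contra h0
  have h1 := hW ν v h0 hv
  have h2 : ∑ j ∈ ({a, i} : Finset (Fin n)), max (ν j) 0 ≤ ∑ i, max (ν i) 0 :=
    Finset.sum_le_sum_of_subset_of_nonneg (Finset.subset_univ _)
      (fun i _ _ => le_max_right _ _)
  rw [Finset.sum_pair hai] at h2
  have h3 : ν a ≤ max (ν a) 0 := le_max_left _ _
  have h4 : ν i ≤ max (ν i) 0 := le_max_left _ _
  linarith

/-- the double sum of the Casimir bound for the weight `2 (e_a - e_b)` -/
theorem sum_wt (a b : Fin n) (hab : a ≠ b) (ν : Fin n → ℝ)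
    (hν : ∀ i, ν i = (if i = a then 2 else 0) - (if i = b then 2 else 0)) :
    ∑ i, ν i ^ 2 + (1 / 2) * ∑ i, ∑ j, |ν i - ν j| = 4 * (n : ℝ) + 4 := by
  have ha : ν a = 2 := by rw [hν]; simp [hab]
  have hb : ν b = -2 := by rw [hν]; simp [hab.symm]
  have hc : ∀ i, i ≠ a → i ≠ b → ν i = 0 := by intro i h1 h2; rw [hν]; simp [h1, h2]
  have hsum : ∑ j, ν j = 0 := by
    simp only [hν]
    rw [Finset.sum_sub_distrib, Finset.sum_ite_eq' Finset.univ a, Finset.sum_ite_eq' Finset.univ b]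
    simp
  have h1 : ∑ i, ν i ^ 2 = 8 := by
    have e1 : ∀ i, ν i ^ 2 = (if i = a then 4 else 0) + (if i = b then 4 else 0) := by
      intro i
      by_cases h1 : i = a
      · subst h1; rw [ha]; simp [hab]; norm_num
      · by_cases h2 : i = b
        · subst h2; rw [hb]; simp [h1]; norm_num
        · rw [hc i h1 h2]; simp [h1, h2]
    simp only [e1]
    rw [Finset.sum_add_distrib, Finset.sum_ite_eq' Finset.univ a, Finset.sum_ite_eq' Finset.univ b]
    simp; norm_num
  have h2 : ∀ i, ∑ j, |ν i - ν j| = 4 + ((if i = a then (2 * (n : ℝ) - 4) else 0) +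
      (if i = b then (2 * (n : ℝ) - 4) else 0)) := by
    intro i
    by_cases h1 : i = a
    · subst h1
      have e1 : ∀ j, |ν i - ν j| = 2 - ν j := by
        intro j
        rw [ha, abs_of_nonneg]
        by_cases h2 : j = i
        · rw [h2, ha]; norm_num
        · by_cases h3 : j = b
          · rw [h3, hb]; norm_num
          · rw [hc j h2 h3]; norm_num
      simp only [e1]
      rw [Finset.sum_sub_distrib, hsum]
      simp [hab]; ring
    · by_cases h2 : i = b
      · subst h2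
        have e1 : ∀ j, |ν i - ν j| = 2 + ν j := by
          intro j
          rw [hb, abs_of_nonpos]
          · ring
          by_cases h2 : j = a
          · rw [h2, ha]; norm_num
          · by_cases h3 : j = i
            · rw [h3, hb]; norm_num
            · rw [hc j h2 h3]; norm_num
        simp only [e1]
        rw [Finset.sum_add_distrib, hsum]
        simp [h1]; ring
      · have e1 : ∀ j, |ν i - ν j| = (if j = a then 2 else 0) + (if j = b then 2 else 0) := by
          intro j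
          rw [hc i h1 h2]
          by_cases h3 : j = a
          · subst h3; rw [ha]; simp [hab]
          · by_cases h4 : j = b
            · subst h4; rw [hb]; simp [h3]
            · rw [hc j h3 h4]; simp [h3, h4]
        simp only [e1]
        rw [Finset.sum_add_distrib, Finset.sum_ite_eq' Finset.univ a,
          Finset.sum_ite_eq' Finset.univ b]
        simp [h1, h2]; norm_num
  rw [h1]
  simp only [h2]
  rw [Finset.sum_add_distrib, Finset.sum_add_distrib, Finset.sum_ite_eq' Finset.univ a,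
    Finset.sum_ite_eq' Finset.univ b]
  simp
  ring

/-- a representation with Casimir constant `0` is trivial -/
theorem triv_of_cas (σ : URep n) (D : Matrix (Fin n) (Fin n) ℂ →ₗ[ℂ] (σ.Sp →L[ℂ] σ.Sp))
    (hD : IsDer σ D) (hC : IsCas σ D 0) : ∀ g : UU n, σ.mat g = 1 := by
  have h0 : ∀ (v : σ.Sp) (i j : Fin n), D (EE i j) v = 0 := by
    intro v i j
    have h1 : (∑ i, ∑ j, star (D (EE i j)) * D (EE i j)) v = 0 := by
      have h0 := hC
      unfold IsCas at h0
      rw [h0]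
      simp
    have h2 : inner ℂ v ((∑ i, ∑ j, star (D (EE i j)) * D (EE i j)) v) =
        (((∑ i, ∑ j, ‖D (EE i j) v‖ ^ 2 : ℝ)) : ℂ) := by
      rw [ContinuousLinearMap.sum_apply, inner_sum, Complex.ofReal_sum]
      refine Finset.sum_congr rfl fun i _ => ?_
      rw [ContinuousLinearMap.sum_apply, inner_sum, Complex.ofReal_sum]
      refine Finset.sum_congr rfl fun j _ => ?_
      rw [ContinuousLinearMap.star_eq_adjoint]
      show inner ℂ v (ContinuousLinearMap.adjoint (D (EE i j)) (D (EE i j) v)) = _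
      rw [ContinuousLinearMap.adjoint_inner_right, inner_self_eq_norm_sq_to_K]
      push_cast
      rfl
    rw [h1, inner_zero_right] at h2
    have h3 : ∑ i, ∑ j, ‖D (EE i j) v‖ ^ 2 = (0 : ℝ) := by exact_mod_cast h2.symm
    have h4 : ‖D (EE i j) v‖ ^ 2 ≤ ∑ j', ‖D (EE i j') v‖ ^ 2 :=
      Finset.single_le_sum (f := fun j' => ‖D (EE i j') v‖ ^ 2) (fun _ _ => by positivity)
        (Finset.mem_univ j)
    have h5 : ∑ j', ‖D (EE i j') v‖ ^ 2 ≤ ∑ i', ∑ j', ‖D (EE i' j') v‖ ^ 2 :=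
      Finset.single_le_sum (f := fun i' => ∑ j', ‖D (EE i' j') v‖ ^ 2)
        (fun _ _ => Finset.sum_nonneg fun _ _ => by positivity) (Finset.mem_univ i)
    have h6 : ‖D (EE i j) v‖ ^ 2 = 0 := le_antisymm (by linarith) (by positivity)
    have h7 : ‖D (EE i j) v‖ = 0 := by
      rcases pow_eq_zero_iff (two_ne_zero) |>.mp h6 with h8
      exact h8
    exact norm_eq_zero.mp h7
  intro g
  have h1 : ∀ v : σ.Sp, σ.op g v = v := fun v =>
    Pool.Agent.UTR.H27.gen n σ D hD Finset.univ v (fun i _ j _ => h0 v i j) g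
      (fun i j h => by simp at h)
  have h2 : σ.op g = 1 := by ext1 v; exact h1 v
  have h3 : Matrix.toEuclideanCLM (n := Fin σ.dim) (𝕜 := ℂ) (σ.mat g)
      = Matrix.toEuclideanCLM (n := Fin σ.dim) (𝕜 := ℂ) 1 := by
    rw [map_one]; exact h2
  exact (Matrix.toEuclideanCLM (n := Fin σ.dim) (𝕜 := ℂ)).injective h3

theorem m2a (hMSH : MSHStmt) (hMK6 : MK6Stmt) (hMCA : MCAStmt) (hMWT : MWTStmt) : M2AStmt := by
  classical
  intro n hn σ D C hNT hD hC hW f hf hS hf0
  obtain ⟨hM1, hM2, hM3, hM4, hM5, hM6⟩ := hMSH n σ D hD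
  obtain ⟨hCA1, hCA2⟩ := hMCA n σ D C hD hC f hf
  have hfn : 0 < ‖f‖ ^ 2 := by
    have := norm_pos_iff.mpr hf0
    positivity
  have hC0 : C ≠ 0 := by
    intro h0
    rw [h0] at hC
    exact hNT (triv_of_cas σ D hD hC)
  have hn2 : (2 : ℝ) ≤ (n : ℝ) := by exact_mod_cast hn
  have hw0 : wt σ D (fun _ => 0) f := (hM2 f).mp hf
  -- the basic facts for a pair
  have key : ∀ a b : Fin n, a ≠ b → Kp σ D a b f = (6 : ℂ) • (f - σ.P {a, b} f) ∧
      6 * ((n : ℝ) * (n - 1)) * ‖f - σ.P {a, b} f‖ ^ 2 = C * ‖f‖ ^ 2 ∧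
      C = 4 * (n : ℝ) + 4 := by
    intro a b hab
    obtain ⟨q, hq⟩ : ∃ q : σ.Sp, q = f - σ.P {a, b} f := ⟨_, rfl⟩
    have hE3 : D (EE a b) (D (EE a b) (D (EE a b) f)) = 0 := by
      have h1 := hM1 _ _ a b (hM1 _ _ a b (hM1 _ f a b hw0))
      exact w2_zero σ D hW _ _ h1 a (by simp [hab]; norm_num)
    have hK : Kp σ D a b f = (6 : ℂ) • q := by
      rw [hq]
      exact (hMK6 n σ D hD a b hab f hf (hS _)).2 (by rw [hE3, map_zero])
    have hKf : D (EE a b) (D (EE b a) f) = (6 : ℂ) • q := hK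
    have hPk : ∀ i j : Fin n, i ∈ ({a, b} : Finset (Fin n)) → j ∈ ({a, b} : Finset (Fin n)) →
        D (EE i j) (σ.P {a, b} f) = 0 := by
      intro i j hi hj
      have h1 := DERP_proof FIX_proof n σ D hD {a, b} i j hi hj
      have h2 := congrArg (fun A : σ.Sp →L[ℂ] σ.Sp => A f) h1
      exact h2
    have hbaq : D (EE b a) q = D (EE b a) f := by
      rw [hq, map_sub, hPk b a (by simp) (by simp), sub_zero]
    have hqeig : D (EE a b) (D (EE b a) q) = ((6 : ℝ) : ℂ) • q := by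
      rw [hbaq, hKf]; norm_num
    have hqT : TInv σ q := by
      rw [hq]
      intro i h hh
      rw [map_sub, hf i h hh, (hM6 f hf).1 {a, b} i h hh]
    have hqw : wt σ D (fun _ => 0) q := (hM2 q).mp hqT
    have hn1 : ‖D (EE b a) f‖ ^ 2 = 6 * ‖q‖ ^ 2 := by
      rw [← hbaq]
      exact nrm_of_eig σ D hD b a q 6 hqeig
    have hmain : 6 * ((n : ℝ) * (n - 1)) * ‖q‖ ^ 2 = C * ‖f‖ ^ 2 := by
      have h1 := hCA2 hS a b hab
      rw [hn1] at h1
      linarith
    have hq0 : q ≠ 0 := by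
      intro h0
      rw [h0, norm_zero] at hmain
      have h1 : C * ‖f‖ ^ 2 = 0 := by rw [← hmain]; ring
      rcases mul_eq_zero.mp h1 with h2 | h2
      · exact hC0 h2
      · exact hfn.ne' h2
    -- the vector `E_ab^2 q`
    have e1 : D (EE b a) (D (EE a b) q) = ((6 : ℝ) : ℂ) • q := by
      rw [comm_wt σ D hD a b _ q hqw, hqeig]
      simp
    have hw1 := hM1 _ q a b hqw
    have hn2' : ‖D (EE a b) q‖ ^ 2 = 6 * ‖q‖ ^ 2 := nrm_of_eig σ D hD a b q 6 e1
    have e2 : D (EE b a) (D (EE a b) (D (EE a b) q)) = ((4 : ℝ) : ℂ) • D (EE a b) q := by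
      rw [comm_wt σ D hD a b _ _ hw1, e1, map_smul]
      have : ((((fun _ : Fin n => (0 : ℝ)) a + (if a = a then 1 else 0) - (if a = b then 1 else 0) -
        ((fun _ : Fin n => (0 : ℝ)) b + (if b = a then 1 else 0) - (if b = b then 1 else 0)) : ℝ)) : ℂ)
          = 2 := by
        simp [hab, hab.symm]; norm_num
      rw [this, ← sub_smul]
      norm_num
    have hn3 : ‖D (EE a b) (D (EE a b) q)‖ ^ 2 = 4 * (6 * ‖q‖ ^ 2) := by
      rw [nrm_of_eig σ D hD a b _ 4 e2, hn2']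
    obtain ⟨v, hv⟩ : ∃ v : σ.Sp, v = D (EE a b) (D (EE a b) q) := ⟨_, rfl⟩
    have hv0 : v ≠ 0 := by
      intro h0
      rw [← hv, h0, norm_zero] at hn3
      have h1 : 0 < ‖q‖ ^ 2 := by
        have := norm_pos_iff.mpr hq0
        positivity
      linarith
    have hw2 := hM1 _ _ a b hw1
    rw [← hv] at hw2
    obtain ⟨ν, hν⟩ : ∃ ν : Fin n → ℝ, ν = fun i => (if i = a then 2 else 0) -
        (if i = b then 2 else 0) := ⟨_, rfl⟩
    have hvν : wt σ D ν v := by
      have h1 : ν = (fun i => ((fun i => (fun _ : Fin n => (0 : ℝ)) i + (if i = a then 1 else 0) -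
          (if i = b then 1 else 0)) i + (if i = a then 1 else 0) - (if i = b then 1 else 0))) := by
        rw [hν]
        funext i
        by_cases h1 : i = a
        · subst h1; simp [hab]; norm_num
        · by_cases h2 : i = b
          · subst h2; simp [h1]; norm_num
          · simp [h1, h2]
      rw [h1]; exact hw2
    have hνi : ∀ i, ν i = (if i = a then 2 else 0) - (if i = b then 2 else 0) := by
      intro i; rw [hν]
    have hνa : ν a = 2 := by rw [hνi]; simp [hab]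
    have hνb : ν b = -2 := by rw [hνi]; simp [hab.symm]
    have hνc : ∀ i, i ≠ a → i ≠ b → ν i = 0 := by intro i h1 h2; rw [hνi]; simp [h1, h2]
    have hkill : ∀ i j, i ≠ j → ν j ≤ ν i → D (EE i j) v = 0 := by
      intro i j hij hji
      have hwij := hM1 ν v i j hvν
      by_cases hia : i = a
      · subst hia
        refine w2_zero σ D hW _ _ hwij i ?_
        rw [hνa]
        simp [hij]; norm_num
      · by_cases hib : i = b
        · subst hib
          exfalso
          rw [hνb] at hji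
          by_cases hja : j = a
          · rw [hja, hνa] at hji; norm_num at hji
          · rw [hνc j hja (Ne.symm hij)] at hji; norm_num at hji
        · have hja : j ≠ a := by
            rintro rfl
            rw [hνa, hνc i hia hib] at hji; norm_num at hji
          refine w2_zero2 σ D hW _ _ hwij a i (Ne.symm hia) ?_
          rw [hνa, hνc i hia hib]
          simp [Ne.symm hia, Ne.symm hja, hij]; norm_num
    have hCeq := (hMWT n σ D C hD hC ν v hv0 hvν).2 hkill
    rw [sum_wt a b hab ν hνi] at hCeq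
    rw [← hq]
    exact ⟨hK, hmain, hCeq⟩
  obtain ⟨i0, i1, h01⟩ : ∃ i0 i1 : Fin n, i0 ≠ i1 :=
    ⟨⟨0, by omega⟩, ⟨1, by omega⟩, by intro h; simpa using congrArg Fin.val h⟩
  have hCeq := (key i0 i1 h01).2.2
  refine ⟨hCeq, fun a b hab => ⟨(key a b hab).1, ?_⟩⟩
  have h1 := (key a b hab).2.1
  rw [hCeq] at h1
  linarith

end Pool.Agent.GRA.H76m
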